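import Pool.Agent.Z125.UN.Dim2
import Pool.Agent.Q193.Zeta.Zeta

/-!
# Domains of finite type over `ℤ` and of characteristic zero as closed subschemes of affine spaces
-/

set_option autoImplicit false

open MvPolynomial Pool.Agent.Z125.UN

namespace Pool.Agent.J4H10.TF

section emb

variable {k : Type} [CommRing k] {B : Type} [CommRing B] [IsDomain B] [Algebra k B]
  {N : ℕ} (x : Fin N → FractionRing B)

/-- the elements of `k[x][1/G0(x)]` -/
def Ts (G0 : MvPolynomial (Fin N) k) : Subalgebra k (FractionRing B) where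
  carrier := {a | ∃ (m : ℕ) (p : MvPolynomial (Fin N) k), aeval x G0 ^ m * a = aeval x p}
  mul_mem' := by
    rintro a b ⟨m, p, h1⟩ ⟨m', p', h2⟩
    refine ⟨m + m', p * p', ?_⟩
    rw [map_mul, ← h1, ← h2, pow_add]
    ring
  add_mem' := by
    rintro a b ⟨m, p, h1⟩ ⟨m', p', h2⟩
    refine ⟨m + m', G0 ^ m' * p + G0 ^ m * p', ?_⟩
    rw [map_add, map_mul, map_mul, map_pow, map_pow, ← h1, ← h2, pow_add]
    ring
  algebraMap_mem' := by
    intro r
    refine ⟨0, C r, ?_⟩
    rw [pow_zero, one_mul, algHom_C]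

/-- A domain of finite type all of whose fractions are quotients of polynomials in `x` has a non-empty
open subscheme which is a locally closed subscheme of the affine space. -/
lemma exists_emb_ring [Algebra.FiniteType k B]
    (hq : ∀ y : FractionRing B, ∃ p q : MvPolynomial (Fin N) k, aeval x q ≠ 0 ∧
      aeval x q * y = aeval x p) :
    ∃ w : B, w ≠ 0 ∧ ∃ (φ : MvPolynomial (Fin N) k →ₐ[k] Localization.Away w)
      (g : MvPolynomial (Fin N) k), IsUnit (φ g) ∧ ∀ a, ∃ (m : ℕ) (p : MvPolynomial (Fin N) k),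
        φ g ^ m * a = φ p := by
  classical
  choose num den hden hnum using hq
  -- common denominator of `x`
  obtain ⟨⟨f, hf⟩, hfx⟩ := IsLocalization.exist_integer_multiples_of_finite (nonZeroDivisors B) x
  choose a ha using hfx
  have hf0 : f ≠ 0 := nonZeroDivisors.ne_zero hf
  obtain ⟨S, hS⟩ := (Algebra.FiniteType.out : (⊤ : Subalgebra k B).FG)
  let ι0 : B →+* FractionRing B := algebraMap B (FractionRing B)
  have hι0 : Function.Injective ι0 := IsFractionRing.injective B (FractionRing B)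
  let G0 : MvPolynomial (Fin N) k := den ((ι0 f)⁻¹) * ∏ b ∈ S, den (ι0 b)
  have hG0 : aeval x G0 ≠ 0 := by
    rw [map_mul, map_prod]
    exact mul_ne_zero (hden _) (Finset.prod_ne_zero_iff.mpr fun b _ => hden _)
  -- `B` is contained in `Ts`
  have hT1 : (ι0 f)⁻¹ ∈ Ts x G0 := by
    refine ⟨1, num ((ι0 f)⁻¹) * ∏ b ∈ S, den (ι0 b), ?_⟩
    rw [pow_one, map_mul, map_mul, ← hnum]
    ring
  have hT2 : ∀ b : B, ι0 b ∈ Ts x G0 := by
    have h1 : (⊤ : Subalgebra k B) ≤
        (Ts x G0).comap (IsScalarTower.toAlgHom k B (FractionRing B)) := by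
      rw [← hS, Algebra.adjoin_le_iff]
      intro b hb
      refine ⟨1, den ((ι0 f)⁻¹) * (num (ι0 b) * ∏ c ∈ S.erase b, den (ι0 c)), ?_⟩
      have h2 : ∏ c ∈ S, den (ι0 c) = den (ι0 b) * ∏ c ∈ S.erase b, den (ι0 c) :=
        (Finset.mul_prod_erase S (fun c => den (ι0 c)) hb).symm
      have h3 := hnum (ι0 b)
      change aeval x G0 ^ 1 * ι0 b = _
      rw [pow_one, map_mul, h2, map_mul, map_mul, map_mul, ← h3]
      ring
    intro b
    exact h1 (Algebra.mem_top (x := b))
  have hT3 : (aeval x G0)⁻¹ ∈ Ts x G0 := by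
    refine ⟨1, 1, ?_⟩
    rw [pow_one, map_one]
    exact mul_inv_cancel₀ hG0
  -- `G0(x)` as a fraction
  have hφ : ∀ p : MvPolynomial (Fin N) k, ∃ (M : ℕ) (b : B), aeval x p * ι0 f ^ M = ι0 b := by
    intro p
    induction p using MvPolynomial.induction_on with
    | C r =>
      refine ⟨0, algebraMap k B r, ?_⟩
      rw [pow_zero, mul_one, algHom_C]
      exact IsScalarTower.algebraMap_apply k B (FractionRing B) r
    | add p q hp hq =>
      obtain ⟨M, b, h1⟩ := hp
      obtain ⟨M', b', h2⟩ := hq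
      refine ⟨M + M', b * f ^ M' + b' * f ^ M, ?_⟩
      rw [map_add, map_add, map_mul, map_mul, map_pow, map_pow, ← h1, ← h2, pow_add]
      ring
    | mul_X p i hp =>
      obtain ⟨M, b, h1⟩ := hp
      refine ⟨M + 1, b * a i, ?_⟩
      have h2 : ι0 (a i) = ι0 f * x i := by
        have := ha i
        rw [Algebra.smul_def] at this
        exact this
      rw [map_mul, map_mul, aeval_X, h2, ← h1]
      ring
  obtain ⟨M, w', hw'⟩ := hφ G0
  have hιf : ι0 f ≠ 0 := fun h => hf0 (hι0 (h.trans (map_zero ι0).symm))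
  have hw'0 : w' ≠ 0 := by
    rintro rfl
    rw [map_zero] at hw'
    exact (mul_ne_zero hG0 (pow_ne_zero _ hιf)) hw'
  let w : B := f * w'
  have hw0 : w ≠ 0 := mul_ne_zero hf0 hw'0
  have hιw : ι0 w ≠ 0 := fun h => hw0 (hι0 (h.trans (map_zero ι0).symm))
  refine ⟨w, hw0, ?_⟩
  -- the localisation and its embedding
  let L := Localization.Away w
  let ι : L →+* FractionRing B := IsLocalization.Away.lift w (g := ι0) (isUnit_iff_ne_zero.mpr hιw)
  have hι : ∀ b, ι (algebraMap B L b) = ι0 b := fun b => IsLocalization.Away.lift_eq w _ b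
  have hsurj : ∀ c : L, ∃ (n : ℕ) (b : B), c * algebraMap B L w ^ n = algebraMap B L b := by
    intro c
    obtain ⟨⟨b, ⟨_, n, rfl⟩⟩, hb⟩ := IsLocalization.surj (Submonoid.powers w) c
    refine ⟨n, b, ?_⟩
    rw [← map_pow]
    exact hb
  have hιinj : Function.Injective ι := by
    rw [injective_iff_map_eq_zero]
    intro c hc
    obtain ⟨n, b, hb⟩ := hsurj c
    have h1 := congrArg ι hb
    rw [map_mul, hc, zero_mul, hι] at h1
    have h2 : b = 0 := hι0 (h1.symm.trans (map_zero ι0).symm)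
    rw [h2, map_zero] at hb
    exact ((IsLocalization.Away.algebraMap_isUnit (S := L) w).pow n).mul_left_eq_zero.mp hb
  have huw : IsUnit (algebraMap B L w) := IsLocalization.Away.algebraMap_isUnit w
  have huf : IsUnit (algebraMap B L f) := by
    have h1 : algebraMap B L w = algebraMap B L f * algebraMap B L w' := map_mul _ _ _
    rw [h1] at huw
    exact isUnit_of_mul_isUnit_left huw
  have huw' : IsUnit (algebraMap B L w') := by
    have h1 : algebraMap B L w = algebraMap B L f * algebraMap B L w' := map_mul _ _ _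
    rw [h1] at huw
    exact isUnit_of_mul_isUnit_right huw
  let fi : L := ↑huf.unit⁻¹
  have hfi : algebraMap B L f * fi = 1 := huf.mul_val_inv
  let φ : MvPolynomial (Fin N) k →ₐ[k] L := aeval fun i => algebraMap B L (a i) * fi
  have hax : ∀ i, ι0 (a i) = ι0 f * x i := by
    intro i
    have := ha i
    rw [Algebra.smul_def] at this
    exact this
  have hιfi : ι0 f * ι fi = 1 := by
    rw [← hι f, ← map_mul, hfi, map_one]
  have hιφ : ∀ p, ι (φ p) = aeval x p := by
    have h1 : ι.comp φ.toRingHom = (aeval x : MvPolynomial (Fin N) k →ₐ[k] _).toRingHom := by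
      apply MvPolynomial.ringHom_ext
      · intro r
        change ι (φ (C r)) = aeval x (C r)
        rw [algHom_C, algHom_C, IsScalarTower.algebraMap_apply k B L, hι]
        exact (IsScalarTower.algebraMap_apply k B (FractionRing B) r).symm
      · intro i
        change ι (φ (X i)) = aeval x (X i)
        have h2 : φ (X i) = algebraMap B L (a i) * fi := aeval_X _ _
        rw [h2, map_mul, hι, hax, aeval_X]
        linear_combination x i * hιfi
    intro p
    exact congrArg (fun h : MvPolynomial (Fin N) k →+* FractionRing B => h p) h1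
  refine ⟨φ, G0, ?_, ?_⟩
  · have h1 : φ G0 * algebraMap B L f ^ M = algebraMap B L w' := by
      apply hιinj
      rw [map_mul, map_pow, hιφ, hι, hι, hw']
    rw [← h1] at huw'
    exact isUnit_of_mul_isUnit_left huw'
  · intro c
    have h1 : ι c ∈ Ts x G0 := by
      obtain ⟨n, b, hb⟩ := hsurj c
      have h3 := congrArg ι hb
      rw [map_mul, map_pow, hι, hι] at h3
      have h4 : (ι0 w)⁻¹ ∈ Ts x G0 := by
        have h5 : (ι0 w)⁻¹ = (ι0 f)⁻¹ * ((aeval x G0)⁻¹ * ((ι0 f)⁻¹) ^ M) := by
          change (ι0 (f * w'))⁻¹ = _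
          rw [map_mul, ← hw', mul_inv, mul_inv, inv_pow]
        rw [h5]
        exact mul_mem hT1 (mul_mem hT3 (pow_mem hT1 M))
      have h6 : ι c = ι0 b * ((ι0 w)⁻¹) ^ n := by
        rw [← h3, mul_assoc, inv_pow, mul_inv_cancel₀ (pow_ne_zero _ hιw), mul_one]
      rw [h6]
      exact mul_mem (hT2 b) (pow_mem h4 n)
    obtain ⟨m, p, h2⟩ := h1
    refine ⟨m, p, hιinj ?_⟩
    rw [map_mul, map_pow, hιφ, hιφ, h2]

end emb

section rat

variable {B : Type} [CommRing B] [IsDomain B] [CharZero B]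

instance charZero_frac : CharZero (FractionRing B) :=
  charZero_of_injective_algebraMap (IsFractionRing.injective B (FractionRing B))

/-- the rational algebra generated by `S` -/
noncomputable def BQ (S : Finset B) : Subalgebra ℚ (FractionRing B) :=
  Algebra.adjoin ℚ (algebraMap B (FractionRing B) '' (S : Set B))

lemma mem_BQ {S : Finset B} (hS : Algebra.adjoin ℤ (S : Set B) = ⊤) (b : B) :
    algebraMap B (FractionRing B) b ∈ BQ S := by
  have h : b ∈ Algebra.adjoin ℤ (S : Set B) := by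
    rw [hS]
    trivial
  induction h using Algebra.adjoin_induction with
  | mem x hx => exact Algebra.subset_adjoin ⟨x, hx, rfl⟩
  | algebraMap r =>
    have h1 : algebraMap B (FractionRing B) (algebraMap ℤ B r) =
        algebraMap ℚ (FractionRing B) (r : ℚ) := by
      simp
    rw [h1]
    exact Subalgebra.algebraMap_mem _ _
  | add x y _ _ hx hy =>
    rw [map_add]
    exact add_mem hx hy
  | mul x y _ _ hx hy =>
    rw [map_mul]
    exact mul_mem hx hy

lemma BQ_den {S : Finset B} (y : FractionRing B) (hy : y ∈ BQ S) :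
    ∃ (m : ℤ) (b : B), m ≠ 0 ∧ (m : FractionRing B) * y = algebraMap B (FractionRing B) b := by
  induction hy using Algebra.adjoin_induction with
  | mem x hx =>
    obtain ⟨b, -, rfl⟩ := hx
    exact ⟨1, b, one_ne_zero, by rw [Int.cast_one, one_mul]⟩
  | algebraMap r =>
    refine ⟨r.den, (r.num : B), by exact_mod_cast r.den_nz, ?_⟩
    have h1 : ((r.den : ℤ) : ℚ) * r = r.num := by
      have := Rat.den_mul_eq_num r
      exact_mod_cast this
    have h2 := congrArg (algebraMap ℚ (FractionRing B)) h1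
    rw [map_mul, map_intCast, map_intCast] at h2
    rw [h2, map_intCast]
  | add x y _ _ hx hy =>
    obtain ⟨m, b, hm, h1⟩ := hx
    obtain ⟨m', b', hm', h2⟩ := hy
    refine ⟨m * m', (m' : B) * b + (m : B) * b', mul_ne_zero hm hm', ?_⟩
    rw [map_add, map_mul, map_mul, ← h1, ← h2, map_intCast, map_intCast]
    push_cast
    ring
  | mul x y _ _ hx hy =>
    obtain ⟨m, b, hm, h1⟩ := hx
    obtain ⟨m', b', hm', h2⟩ := hy
    refine ⟨m * m', b * b', mul_ne_zero hm hm', ?_⟩
    rw [map_mul, ← h1, ← h2]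
    push_cast
    ring

/-- the inclusion -/
noncomputable def jQ {S : Finset B} (hS : Algebra.adjoin ℤ (S : Set B) = ⊤) : B →+* BQ S :=
  (algebraMap B (FractionRing B)).codRestrict (BQ S) (mem_BQ hS)

lemma jQ_val {S : Finset B} (hS : Algebra.adjoin ℤ (S : Set B) = ⊤) (b : B) :
    (jQ hS b : FractionRing B) = algebraMap B (FractionRing B) b := rfl

lemma isUnit_int {S : Finset B} {m : ℤ} (hm : m ≠ 0) : IsUnit (m : BQ S) := by
  have h1 : IsUnit (m : ℚ) := isUnit_iff_ne_zero.mpr (by exact_mod_cast hm)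
  have h2 := h1.map (algebraMap ℚ (BQ S))
  rwa [map_intCast] at h2

lemma comap_inj {S : Finset B} (hS : Algebra.adjoin ℤ (S : Set B) = ⊤) :
    Function.Injective (PrimeSpectrum.comap (jQ hS)) := by
  have key : ∀ P Q : PrimeSpectrum (BQ S), PrimeSpectrum.comap (jQ hS) P =
      PrimeSpectrum.comap (jQ hS) Q → P.asIdeal ≤ Q.asIdeal := by
    intro P Q h y hy
    obtain ⟨m, b, hm, h1⟩ := BQ_den y.1 y.2
    have h2 : (m : BQ S) * y = jQ hS b := by
      apply Subtype.ext
      rw [jQ_val, ← h1]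
      push_cast
      rfl
    have h3 : b ∈ (PrimeSpectrum.comap (jQ hS) P).asIdeal := by
      change jQ hS b ∈ P.asIdeal
      rw [← h2]
      exact Ideal.mul_mem_left _ _ hy
    rw [h] at h3
    change jQ hS b ∈ Q.asIdeal at h3
    rw [← h2] at h3
    exact (Ideal.unit_mul_mem_iff_mem _ (isUnit_int hm)).mp h3
  intro P Q h
  exact PrimeSpectrum.ext (le_antisymm (key P Q h) (key Q P h.symm))

lemma comap_lt [Algebra.FiniteType ℤ B] {S : Finset B} (hS : Algebra.adjoin ℤ (S : Set B) = ⊤)
    (P : PrimeSpectrum (BQ S)) : ∃ M : PrimeSpectrum B, PrimeSpectrum.comap (jQ hS) P < M := by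
  obtain ⟨M, hM, hle⟩ := Ideal.exists_le_maximal (PrimeSpectrum.comap (jQ hS) P).asIdeal
    (PrimeSpectrum.comap (jQ hS) P).isPrime.ne_top
  refine ⟨⟨M, hM.isPrime⟩, lt_of_le_of_ne hle ?_⟩
  rintro h
  have hmax : (PrimeSpectrum.comap (jQ hS) P).asIdeal.IsMaximal := by
    rw [h]
    exact hM
  let κ := B ⧸ (PrimeSpectrum.comap (jQ hS) P).asIdeal
  let _ : Field κ := Ideal.Quotient.field _
  have hft : Algebra.FiniteType ℤ κ := inferInstance
  have hfin : Finite κ := Pool.Agent.Q193.Zeta.finite_of_finiteType κ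
  have h1 : (Nat.card κ : κ) = 0 := by
    have := Fintype.ofFinite κ
    rw [Nat.card_eq_fintype_card]
    exact Nat.cast_card_eq_zero κ
  have h2 : ((Nat.card κ : ℕ) : B) ∈ (PrimeSpectrum.comap (jQ hS) P).asIdeal := by
    rw [← Ideal.Quotient.eq_zero_iff_mem, map_natCast]
    exact h1
  have h3 : jQ hS ((Nat.card κ : ℕ) : B) ∈ P.asIdeal := h2
  rw [map_natCast] at h3
  have h4 : IsUnit ((Nat.card κ : ℕ) : BQ S) := by
    have := isUnit_int (S := S) (m := (Nat.card κ : ℤ)) (by exact_mod_cast Nat.card_pos.ne')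
    exact_mod_cast this
  exact P.isPrime.ne_top (Ideal.eq_top_of_isUnit_mem _ h3 h4)

lemma dim_BQ [Algebra.FiniteType ℤ B] {S : Finset B} (hS : Algebra.adjoin ℤ (S : Set B) = ⊤)
    {n : ℕ} (hn : ringKrullDim B ≤ (n + 1 : ℕ)) : ringKrullDim (BQ S) ≤ n := by
  have hmono : StrictMono (PrimeSpectrum.comap (jQ hS)) := by
    refine Monotone.strictMono_of_injective ?_ (comap_inj hS)
    intro P Q h
    exact Ideal.comap_mono h
  unfold ringKrullDim Order.krullDim
  refine iSup_le fun l => ?_
  obtain ⟨M, hM⟩ := comap_lt hS l.last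
  let L : LTSeries (PrimeSpectrum B) := (l.map _ hmono).snoc M hM
  have h1 : (L.length : WithBot ℕ∞) ≤ (n + 1 : ℕ) := (Order.LTSeries.length_le_krullDim L).trans hn
  have h2 : L.length = l.length + 1 := rfl
  rw [h2] at h1
  have h3 : l.length + 1 ≤ n + 1 := by exact_mod_cast h1
  have h4 : l.length ≤ n := by omega
  exact_mod_cast h4

omit [IsDomain B] [CharZero B] [CommRing B] in
lemma gens_quot {k : Type} [Field k] {B' : Type} [CommRing B'] [IsDomain B'] [Algebra k B'] {N : ℕ}
    (x : Fin N → FractionRing B') (hx : IntermediateField.adjoin k (Set.range x) = ⊤) (K : Type)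
    [Field K] (e : FractionRing B' ≃+* K) : ∃ f : MvPolynomial (Fin N) k →+* K, ∀ y : K,
      ∃ p q : MvPolynomial (Fin N) k, f q ≠ 0 ∧ f q * y = f p := by
  refine ⟨(e : FractionRing B' →+* K).comp (aeval x : MvPolynomial (Fin N) k →ₐ[k] _).toRingHom,
    fun y => ?_⟩
  change ∃ p q : MvPolynomial (Fin N) k, e (aeval x q) ≠ 0 ∧ e (aeval x q) * y = e (aeval x p)
  have h1 : e.symm y ∈ IntermediateField.adjoin k (Set.range x) := by
    rw [hx]
    trivial
  obtain ⟨p, q, h2⟩ := (IntermediateField.mem_adjoin_range_iff k x _).mp h1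
  have h4 : y = e (aeval x p / aeval x q) := by
    rw [← h2, RingEquiv.apply_symm_apply]
  by_cases h3 : aeval x q = 0
  · refine ⟨0, 1, ?_, ?_⟩
    · rw [map_one, map_one]
      exact one_ne_zero
    · rw [h4, h3, div_zero, map_zero, mul_zero, map_zero, map_zero]
  · refine ⟨p, q, ?_, ?_⟩
    · exact (map_ne_zero_iff e e.injective).mpr h3
    · rw [h4, ← map_mul]
      congr 1
      field_simp

omit [IsDomain B] [CharZero B] [CommRing B] in
lemma clear_den {K : Type} [Field K] [Algebra ℤ K] {N : ℕ} (f : MvPolynomial (Fin N) ℚ →+* K)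
    (p : MvPolynomial (Fin N) ℚ) : ∃ (m : ℤ) (p' : MvPolynomial (Fin N) ℤ),
      m ≠ 0 ∧ aeval (fun i => f (X i)) p' = (m : K) * f p := by
  induction p using MvPolynomial.induction_on with
  | C r =>
    refine ⟨r.den, C r.num, by exact_mod_cast r.den_nz, ?_⟩
    have h1 : ((r.den : ℤ) : ℚ) * r = r.num := by
      have := Rat.den_mul_eq_num r
      exact_mod_cast this
    have h2 := congrArg (fun z : ℚ => f (C z)) h1
    simp only [map_mul, map_intCast] at h2
    rw [h2, algHom_C, eq_intCast]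
  | add p q hp hq =>
    obtain ⟨m, p', hm, h1⟩ := hp
    obtain ⟨m', q', hm', h2⟩ := hq
    refine ⟨m * m', C m' * p' + C m * q', mul_ne_zero hm hm', ?_⟩
    rw [map_add, map_add, map_mul, map_mul, h1, h2, algHom_C, algHom_C]
    simp only [eq_intCast]
    push_cast
    ring
  | mul_X p i hp =>
    obtain ⟨m, p', hm, h1⟩ := hp
    refine ⟨m, p' * X i, hm, ?_⟩
    rw [map_mul, map_mul, h1, aeval_X]
    ring

/-- The fractions are quotients of polynomials in `n + 1` elements, if the dimension is at most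
`n + 1`. -/
lemma exists_gens_int [Algebra.FiniteType ℤ B] {n : ℕ} (hn : ringKrullDim B ≤ (n + 1 : ℕ)) :
    ∃ x : Fin (n + 1) → FractionRing B, ∀ y : FractionRing B,
      ∃ p q : MvPolynomial (Fin (n + 1)) ℤ, aeval x q ≠ 0 ∧ aeval x q * y = aeval x p := by
  obtain ⟨S, hS⟩ := (Algebra.FiniteType.out : (⊤ : Subalgebra ℤ B).FG)
  have hft : Algebra.FiniteType ℚ (BQ S) := by
    rw [← Subalgebra.fg_iff_finiteType]
    exact Subalgebra.fg_def.mpr ⟨_, S.finite_toSet.image _, rfl⟩
  obtain ⟨x0, hx0⟩ := exists_gens ℚ (BQ S) n (dim_BQ hS hn)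
  have hfr : IsFractionRing (BQ S) (FractionRing B) := by
    refine IsFractionRing.of_field _ _ fun z => ?_
    obtain ⟨a, b, -, rfl⟩ := IsFractionRing.div_surjective (A := B) z
    exact ⟨jQ hS a, jQ hS b, rfl⟩
  let e : FractionRing (BQ S) ≃+* FractionRing B :=
    (FractionRing.algEquiv (BQ S) (FractionRing B)).toRingEquiv
  obtain ⟨f, hf⟩ := gens_quot x0 hx0 (FractionRing B) e
  refine ⟨fun i => f (X i), fun y => ?_⟩
  obtain ⟨p, q, hq, hpq⟩ := hf y
  obtain ⟨m, p', hm, h1⟩ := clear_den f p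
  obtain ⟨m', q', hm', h2⟩ := clear_den f q
  have hm1 : (m : FractionRing B) ≠ 0 := by exact_mod_cast hm
  have hm2 : (m' : FractionRing B) ≠ 0 := by exact_mod_cast hm'
  refine ⟨C m' * p', C m * q', ?_, ?_⟩
  · rw [map_mul, h2, algHom_C, eq_intCast]
    exact mul_ne_zero hm1 (mul_ne_zero hm2 hq)
  · rw [map_mul, map_mul, h1, h2, algHom_C, algHom_C, eq_intCast, eq_intCast]
    linear_combination (m : FractionRing B) * m' * hpq

end rat

end Pool.Agent.J4H10.TF
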