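import Pool.Agent.J4H9.BSClo
import Pool.Agent.Z125.UN.Sym
import Pool.Agent.Y116.UV.Graph

/-!
# The order formula and the affine bundles of Jouanolou
-/

set_option autoImplicit false

open CategoryTheory CategoryTheory.Limits AlgebraicGeometry MvPolynomial Pool.Agent.Y116.UV
  Pool.Agent.Z125.UN Pool.Agent.Q193.LT Pool.Agent.Q193.Zeta Pool.Agent.Q282.UK Pool.Agent.Q282.UZ
  Pool.Agent.J4H9.BS

universe w

namespace Pool.Agent.J4H10.TF

/-- The properties of the groups `A m k X = CH_m(X, k) ⊗ ℚ` which are used: those of `IsChow`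
(isomorphisms, localization sequences, `X × 𝔾_m`, vanishing for large `m`), and the homotopy invariance
for the affine bundles of Jouanolou: if `U` is the complement of `f_1 = … = f_r = 0` in the affine scheme
`Spec B`, then the spectrum of `B[w] / (∑ f_l w_l - 1)` is an affine bundle of rank `r - 1` over `U`. -/
structure IsChowJ (A : ℤ → ℤ → Sch ℤ → ModuleCat.{w} ℚ) : Prop extends IsChow A where
  jou : ∀ (B : Type) [CommRing B] [Algebra ℤ B] [Algebra.FiniteType ℤ B] (r : ℕ) (f : Fin r → B)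
    (U : Sch ℤ) (j : U ⟶ aff ℤ B), IsOpenImmersion j.left →
    Set.range j.left = {x : PrimeSpectrum B | ∃ l, f l ∉ x.asIdeal} →
    ∀ m k : ℤ, Nonempty (A (m + (r - 1)) k (aff ℤ (Jou f)) ≅ A m k U)

section

variable {A : ℤ → ℤ → Sch ℤ → ModuleCat.{w} ℚ} (hA : IsChowJ A)
  {B : Type} [CommRing B] [Algebra ℤ B] [Algebra.FiniteType ℤ B] {r : ℕ} (f : Fin r → B)
  {U : Sch ℤ} (j : U ⟶ aff ℤ B) (hj : IsOpenImmersion j.left)
  (hr : Set.range j.left = {x : PrimeSpectrum B | ∃ l, f l ∉ x.asIdeal})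

include hA hj hr

theorem rk_jou (m : ℤ) (h : FinRank (A (m + (1 - r))) U) :
    FinRank (A m) (aff ℤ (Jou f)) ∧ rk (A m) (aff ℤ (Jou f)) = rk (A (m + (1 - r))) U := by
  refine fin_iso' (fun k => ?_) h
  obtain ⟨e⟩ := hA.jou B r f U j hj hr (m + (1 - r)) k
  have e2 : m + (1 - (r : ℤ)) + (r - 1) = m := by ring
  rw [e2] at e
  exact ⟨e.symm⟩

theorem rk_jou' (m : ℤ) (h : FinRank (A (m + (r - 1))) (aff ℤ (Jou f))) :
    FinRank (A m) U ∧ rk (A m) U = rk (A (m + (r - 1))) (aff ℤ (Jou f)) :=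
  fin_iso' (fun k => hA.jou B r f U j hj hr m k) h

theorem formula_jou (h : Formula A U) : Formula A (aff ℤ (Jou f)) := by
  have hU : FT False U := ft_open j (ft_aff False) hj
  obtain ⟨F, hF, ⟨σ, hσ⟩, hm⟩ := h
  obtain ⟨τ, hτ⟩ := zeta_jou f hU hj hr
  refine ⟨fun s => F (s + ((1 - r : ℤ) : ℂ)), mero_sub hF _, ⟨max (σ + r) τ, fun s hs => ?_⟩,
    fun m => ?_⟩
  · have a1 : σ + r < s.re := lt_of_le_of_lt (le_max_left _ _) hs
    change F (s + ((1 - r : ℤ) : ℂ)) = _
    rw [hσ _ (by rw [Complex.add_re, Complex.intCast_re]; push_cast; linarith),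
      hτ s (lt_of_le_of_lt (le_max_right _ _) hs)]
  · obtain ⟨h1, h2⟩ := rk_jou hA f j hj hr m (hm (m + (1 - r))).1
    refine ⟨h1, ?_⟩
    have h3 : meromorphicOrderAt (fun s => F (s + ((1 - r : ℤ) : ℂ))) (m : ℂ) =
        meromorphicOrderAt F ((m : ℂ) + ((1 - r : ℤ) : ℂ)) :=
      meromorphicOrderAt_comp_add_const_eq_meromorphicOrderAt
    rw [h3, h2, ← (hm (m + (1 - r))).2]
    push_cast
    rfl

theorem formula_jou' (h : Formula A (aff ℤ (Jou f))) : Formula A U := by
  have hU : FT False U := ft_open j (ft_aff False) hj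
  obtain ⟨F, hF, ⟨σ, hσ⟩, hm⟩ := h
  obtain ⟨τ, hτ⟩ := zeta_jou f hU hj hr
  refine ⟨fun s => F (s + ((r - 1 : ℤ) : ℂ)), mero_sub hF _, ⟨max (σ + 1) (τ + 1), fun s hs => ?_⟩,
    fun m => ?_⟩
  · have a0 : (0 : ℝ) ≤ r := Nat.cast_nonneg r
    have a1 : σ + 1 < s.re := lt_of_le_of_lt (le_max_left _ _) hs
    have a2 : τ + 1 < s.re := lt_of_le_of_lt (le_max_right _ _) hs
    change F (s + ((r - 1 : ℤ) : ℂ)) = _
    rw [hσ _ (by rw [Complex.add_re, Complex.intCast_re]; push_cast; linarith),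
      hτ _ (by rw [Complex.add_re, Complex.intCast_re]; push_cast; linarith)]
    congr 1
    push_cast
    ring
  · obtain ⟨h1, h2⟩ := rk_jou' hA f j hj hr m (hm (m + (r - 1))).1
    refine ⟨h1, ?_⟩
    have h3 : meromorphicOrderAt (fun s => F (s + ((r - 1 : ℤ) : ℂ))) (m : ℂ) =
        meromorphicOrderAt F ((m : ℂ) + ((r - 1 : ℤ) : ℂ)) :=
      meromorphicOrderAt_comp_add_const_eq_meromorphicOrderAt
    rw [h3, h2, ← (hm (m + (r - 1))).2]
    push_cast
    rfl

end

section base

variable (R : Type) [CommRing R]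

/-- the morphism `Spec R → Spec ℤ` -/
noncomputable def gZ : Spec (CommRingCat.of R) ⟶ Spec (CommRingCat.of ℤ) :=
  Spec.map (CommRingCat.ofHom (algebraMap ℤ R))

variable {R}

/-- a scheme over `R` as a scheme over `ℤ` -/
noncomputable def toInt (X : Sch R) : Sch ℤ := Over.mk (X.hom ≫ gZ R)

/-- a morphism over `R` as a morphism over `ℤ` -/
noncomputable def mapInt {X Y : Sch R} (f : X ⟶ Y) : toInt X ⟶ toInt Y :=
  Over.homMk f.left (by
    change f.left ≫ (Y.hom ≫ gZ R) = X.hom ≫ gZ R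
    rw [← Category.assoc, Over.w])

lemma mapInt_left {X Y : Sch R} (f : X ⟶ Y) : (mapInt f).left = f.left := rfl

noncomputable def isoInt {X Y : Sch R} (e : X ≅ Y) : toInt X ≅ toInt Y where
  hom := mapInt e.hom
  inv := mapInt e.inv
  hom_inv_id := by
    apply Over.OverMorphism.ext
    change e.hom.left ≫ e.inv.left = 𝟙 _
    rw [← Over.comp_left, e.hom_inv_id]
    rfl
  inv_hom_id := by
    apply Over.OverMorphism.ext
    change e.inv.left ≫ e.hom.left = 𝟙 _
    rw [← Over.comp_left, e.inv_hom_id]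
    rfl

/-- affine schemes over `R` as schemes over `ℤ` -/
noncomputable def affInt (B : Type) [CommRing B] [Algebra R B] [Algebra ℤ B] :
    toInt (aff R B) ≅ aff ℤ B :=
  Over.isoMk (Iso.refl _) (by
    change 𝟙 _ ≫ Spec.map (CommRingCat.ofHom (algebraMap ℤ B)) =
      Spec.map (CommRingCat.ofHom (algebraMap R B)) ≫
        Spec.map (CommRingCat.ofHom (algebraMap ℤ R))
    rw [Category.id_comp, ← Spec.map_comp, ← CommRingCat.ofHom_comp]
    congr 2
    exact RingHom.ext_int _ _)

lemma affInt_left (B : Type) [CommRing B] [Algebra R B] [Algebra ℤ B] :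
    (affInt (R := R) B).hom.left = 𝟙 _ := rfl

variable [hR : Algebra.FiniteType ℤ R]

lemma ft_gZ : LocallyOfFiniteType (gZ R) := by
  unfold gZ
  rw [HasRingHomProperty.Spec_iff (P := @LocallyOfFiniteType)]
  exact RingHom.finiteType_algebraMap.mpr hR

lemma ft_toInt {sep : Prop} {X : Sch R} (h : FT sep X) : FT False (toInt X) where
  locallyOfFiniteType := by
    have h1 := h.locallyOfFiniteType
    have h2 := ft_gZ (R := R)
    exact MorphismProperty.comp_mem _ X.hom (gZ R) h1 h2
  quasiCompact := by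
    have h1 := h.quasiCompact
    have h2 : QuasiCompact (gZ R) := by
      unfold gZ
      infer_instance
    exact MorphismProperty.comp_mem _ X.hom (gZ R) h1 h2
  separated h := h.elim

lemma ft_trans (B : Type) [CommRing B] [Algebra R B] [Algebra.FiniteType R B] :
    Algebra.FiniteType ℤ B := Algebra.FiniteType.trans (S := R) inferInstance inferInstance

/-- A property of schemes over `ℤ` that is compatible with isomorphisms, closed-open decompositions,
affine bundles of Jouanolou and products with the multiplicative group. -/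
structure Good (Q : Sch ℤ → Prop) : Prop where
  iso : ∀ {X Y : Sch ℤ}, FT False X → (X ≅ Y) → Q X → Q Y
  total : ∀ {Z X U : Sch ℤ} (i : Z ⟶ X) (j : U ⟶ X), FT False X → IsTriple i j → Q Z → Q U → Q X
  opened : ∀ {Z X U : Sch ℤ} (i : Z ⟶ X) (j : U ⟶ X), FT False X → IsTriple i j → Q Z → Q X → Q U
  closed : ∀ {Z X U : Sch ℤ} (i : Z ⟶ X) (j : U ⟶ X), FT False X → IsTriple i j → Q X → Q U → Q Z
  up : ∀ (B : Type) [CommRing B] [Algebra ℤ B] [Algebra.FiniteType ℤ B] (r : ℕ) (f : Fin r → B)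
    (U : Sch ℤ) (j : U ⟶ aff ℤ B), IsOpenImmersion j.left →
    Set.range j.left = {x : PrimeSpectrum B | ∃ l, f l ∉ x.asIdeal} → Q U → Q (aff ℤ (Jou f))
  down : ∀ (B : Type) [CommRing B] [Algebra ℤ B] [Algebra.FiniteType ℤ B] (r : ℕ) (f : Fin r → B)
    (U : Sch ℤ) (j : U ⟶ aff ℤ B), IsOpenImmersion j.left →
    Set.range j.left = {x : PrimeSpectrum B | ∃ l, f l ∉ x.asIdeal} → Q (aff ℤ (Jou f)) → Q U
  torus : ∀ (B : Type) [CommRing B] [Algebra ℤ B] [Algebra.FiniteType ℤ B],
    Q (aff ℤ (LaurentPolynomial B)) → Q (aff ℤ B)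

omit hR in
theorem good_formula {A : ℤ → ℤ → Sch ℤ → ModuleCat.{w} ℚ} (hA : IsChowJ A) :
    Good (Formula A) where
  iso hX e h := (clo_formula hA.toIsChow).iso hX ⟨e⟩ h
  total i j hX ht hZ hU := (clo_formula hA.toIsChow).total i j hX ht hZ hU
  opened i j hX ht hZ hX' := (clo_formula hA.toIsChow).opened i j hX ht hZ hX'
  closed i j hX ht hX' hU := formula_closed hA.toIsChow i j hX ht hX' hU
  up B _ _ _ r f U j hj hr h := formula_jou hA f j hj hr h
  down B _ _ _ r f U j hj hr h := formula_jou' hA f j hj hr h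
  torus B _ _ _ h := formula_torus hA.toIsChow B h

omit hR in
theorem good_co : Good Co where
  iso hX e h := bnd_co.iso hX ⟨e⟩ h
  total i j hX ht hZ hU := bnd_co.total i j hX ht hZ hU
  opened i j hX ht hZ hX' := bnd_co.opened i j hX ht hZ hX'
  closed i j hX ht hX' hU := bnd_co.closed i j hX ht hX' hU
  up B _ _ _ r f U j hj hr h := bnd_co.bundle B r f U j hj hr h
  down B _ _ _ r f U j hj hr h := bnd_co.jouanolou B r f U j hj hr h
  torus B _ _ _ h := bnd_co.torus B h

variable {Q : Sch ℤ → Prop} (hQ : Good Q)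

include hQ

/-- The closure properties of the schemes over `R` for which `Q` is true. -/
theorem bnd_good (sep : Prop) :
    Bnd sep fun X : Sch R => Q (aff ℤ R) → Q (toInt X) where
  iso {X Y} hX e h h0 := by
    obtain ⟨e⟩ := e
    exact hQ.iso (ft_toInt hX) (isoInt e) (h h0)
  total {Z X U} i j hX ht hZ hU h0 :=
    hQ.total (mapInt i) (mapInt j) (ft_toInt hX)
      ⟨ht.closed, ht.opened, ht.compl⟩ (hZ h0) (hU h0)
  opened {Z X U} i j hX ht hZ hX' h0 :=
    hQ.opened (mapInt i) (mapInt j) (ft_toInt hX)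
      ⟨ht.closed, ht.opened, ht.compl⟩ (hZ h0) (hX' h0)
  closed {Z X U} i j hX ht hX' hU h0 :=
    hQ.closed (mapInt i) (mapInt j) (ft_toInt hX)
      ⟨ht.closed, ht.opened, ht.compl⟩ (hX' h0) (hU h0)
  space n h0 := by
    have h1 : Q (aff ℤ (Jou (f1 R n))) := by
      refine hQ.up R (n + 1) (f1 R n) (aff ℤ R) (𝟙 (aff ℤ R))
        (inferInstanceAs (IsOpenImmersion (𝟙 (aff ℤ R).left))) ?_ h0
      have h1 : Set.range (𝟙 (aff ℤ R) : aff ℤ R ⟶ aff ℤ R).left = Set.univ := Set.range_id
      have h2 : {x : PrimeSpectrum R | ∃ l, f1 R n l ∉ x.asIdeal} = Set.univ := by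
        rw [Set.eq_univ_iff_forall]
        intro x
        exact ⟨0, fun h => x.isPrime.ne_top ((Ideal.eq_top_iff_one _).mpr h)⟩
      exact h1.trans h2.symm
    have h2 : Algebra.FiniteType ℤ (Jou (f1 R n)) := ft_trans (R := R) _
    have h3 := hQ.iso (ft_aff False) (affInt (R := R) (Jou (f1 R n))).symm h1
    exact hQ.iso (ft_toInt (sep := False) (ft_aff False)) (isoInt (affIso (jouOne R n)).symm) h3
  jouanolou B _ _ _ m f U j hj hr h h0 := by
    have h2 : Algebra.FiniteType ℤ B := ft_trans (R := R) B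
    have h3 : Algebra.FiniteType ℤ (Jou f) := ft_trans (R := B) _
    have h4 := hQ.iso (ft_toInt (sep := False) (ft_aff False)) (affInt (R := R) (Jou f)) (h h0)
    exact hQ.down B m f (toInt U) (mapInt j ≫ (affInt (R := R) B).hom) (by
      rw [Over.comp_left, affInt_left, mapInt_left]
      have := Category.comp_id j.left
      exact this ▸ hj) (by
      have h5 : (mapInt j ≫ (affInt (R := R) B).hom).left = j.left := Category.comp_id j.left
      rw [h5]
      exact hr) h4
  torus B _ _ _ h h0 := by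
    have h2 : Algebra.FiniteType ℤ B := ft_trans (R := R) B
    have h3 := ft_laurent (R := R) B
    have h4 : Algebra.FiniteType ℤ (LaurentPolynomial B) := ft_trans (R := R) _
    have h5 := hQ.iso (ft_toInt (sep := False) (ft_aff False))
      (affInt (R := R) (LaurentPolynomial B)) (h h0)
    exact hQ.iso (ft_aff False) (affInt (R := R) B).symm (hQ.torus B h5)
  bundle B _ _ _ m f U j hj hr h h0 := by
    have h2 : Algebra.FiniteType ℤ B := ft_trans (R := R) B
    have h3 : Algebra.FiniteType ℤ (Jou f) := ft_trans (R := B) _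
    refine hQ.iso (ft_aff False) (affInt (R := R) (Jou f)).symm ?_
    exact hQ.up B m f (toInt U) (mapInt j ≫ (affInt (R := R) B).hom) (by
      rw [Over.comp_left, affInt_left, mapInt_left]
      have := Category.comp_id j.left
      exact this ▸ hj) (by
      have h5 : (mapInt j ≫ (affInt (R := R) B).hom).left = j.left := Category.comp_id j.left
      rw [h5]
      exact hr) (h h0)

end base

end Pool.Agent.J4H10.TF
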