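import Pool.Agent.Y116.UV.Graph
import Pool.Agent.Y116.UV.Cone

/-!
# The hypersurface `x y z = 1`
-/

set_option autoImplicit false

open MvPolynomial Pool.Agent.Y116.UV

namespace Pool.Agent.J4H10.TF

variable (R : Type) [CommRing R]

/-- the form `x y z` -/
abbrev T1 : Fin 1 → Fin 1 → Fin 1 → R := fun _ _ _ => 1

/-- Laurent polynomials in two variables -/
abbrev LL : Type := LaurentPolynomial (LaurentPolynomial R)

/-- the images of the variables -/
noncomputable def v1 : Fin 1 ⊕ (Fin 1 ⊕ Fin 1) → LL R :=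
  Sum.elim (fun _ => LaurentPolynomial.C (LaurentPolynomial.T 1))
    (Sum.elim (fun _ => LaurentPolynomial.T 1)
      (fun _ => LaurentPolynomial.C (LaurentPolynomial.T (-1)) * LaurentPolynomial.T (-1)))

lemma v1_mul : v1 R (Sum.inl 0) * v1 R (Sum.inr (Sum.inl 0)) * v1 R (Sum.inr (Sum.inr 0)) = 1 := by
  change LaurentPolynomial.C (LaurentPolynomial.T 1) * LaurentPolynomial.T 1 *
    (LaurentPolynomial.C (LaurentPolynomial.T (-1)) * LaurentPolynomial.T (-1)) = 1
  have h1 : (LaurentPolynomial.T 1 : LL R) * LaurentPolynomial.T (-1) = 1 := by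
    rw [← LaurentPolynomial.T_add, add_neg_cancel, LaurentPolynomial.T_zero]
  have h2 : (LaurentPolynomial.C (LaurentPolynomial.T 1) : LL R) *
      LaurentPolynomial.C (LaurentPolynomial.T (-1)) = 1 := by
    rw [← map_mul, ← LaurentPolynomial.T_add, add_neg_cancel, LaurentPolynomial.T_zero, map_one]
  calc _ = (LaurentPolynomial.C (LaurentPolynomial.T 1) *
      LaurentPolynomial.C (LaurentPolynomial.T (-1))) * (LaurentPolynomial.T 1 *
        LaurentPolynomial.T (-1)) := by ring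
    _ = 1 := by rw [h1, h2, one_mul]

/-- to the Laurent polynomials -/
noncomputable def toLL : Hyp (T1 R) →ₐ[R] LL R :=
  Ideal.Quotient.liftₐ _ (aeval (v1 R)) (by
    intro p hp
    have h9 : Ideal.span {tri (T1 R) - 1} ≤
        RingHom.ker (aeval (v1 R) : MvPolynomial (Fin 1 ⊕ (Fin 1 ⊕ Fin 1)) R →ₐ[R] LL R) := by
      rw [Ideal.span_le, Set.singleton_subset_iff]
      change aeval (v1 R) (tri (T1 R) - 1) = 0
      rw [map_sub, map_one, aeval_tri]
      simp only [Finset.univ_unique, Fin.default_eq_zero, Finset.sum_singleton, map_one, one_mul]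
      rw [v1_mul, sub_self]
    exact h9 hp)

/-- the variables -/
noncomputable def hx (s : Fin 1 ⊕ (Fin 1 ⊕ Fin 1)) : Hyp (T1 R) := Ideal.Quotient.mk _ (X s)

lemma toLL_hx (s : Fin 1 ⊕ (Fin 1 ⊕ Fin 1)) : toLL R (hx R s) = v1 R s := by
  change aeval (v1 R) (X s) = _
  rw [aeval_X]

lemma hx_mul : hx R (Sum.inl 0) * hx R (Sum.inr (Sum.inl 0)) * hx R (Sum.inr (Sum.inr 0)) = 1 := by
  have h := Ideal.Quotient.eq_zero_iff_mem.mpr
    (Ideal.mem_span_singleton_self (tri (T1 R) - 1))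
  rw [map_sub, map_one, sub_eq_zero] at h
  rw [← h]
  have e : tri (T1 R) = X (Sum.inl 0) * X (Sum.inr (Sum.inl 0)) * X (Sum.inr (Sum.inr 0)) := by
    simp only [tri, Finset.univ_unique, Fin.default_eq_zero, Finset.sum_singleton, map_one, one_mul]
  refine Eq.symm ((congrArg (Ideal.Quotient.mk (Ideal.span {tri (T1 R) - 1})) e).trans ?_)
  rw [map_mul, map_mul]
  rfl

/-- `x` is a unit -/
noncomputable def ux : (Hyp (T1 R))ˣ :=
  Units.mkOfMulEqOne (hx R (Sum.inl 0)) (hx R (Sum.inr (Sum.inl 0)) * hx R (Sum.inr (Sum.inr 0)))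
    (by rw [← mul_assoc, hx_mul])

/-- `y` is a unit -/
noncomputable def uy : (Hyp (T1 R))ˣ :=
  Units.mkOfMulEqOne (hx R (Sum.inr (Sum.inl 0))) (hx R (Sum.inl 0) * hx R (Sum.inr (Sum.inr 0)))
    (by
      have h := hx_mul R
      linear_combination h)

/-- the first step -/
noncomputable def b1 : LaurentPolynomial R →+* Hyp (T1 R) :=
  LaurentPolynomial.eval₂ (algebraMap R (Hyp (T1 R))) (ux R)

/-- from the Laurent polynomials -/
noncomputable def b2 : LL R →+* Hyp (T1 R) := LaurentPolynomial.eval₂ (b1 R) (uy R)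

lemma b2_C (a : LaurentPolynomial R) : b2 R (LaurentPolynomial.C a) = b1 R a := by
  rw [b2, LaurentPolynomial.eval₂_C]

lemma b1_C (a : R) : b1 R (LaurentPolynomial.C a) = algebraMap R (Hyp (T1 R)) a := by
  rw [b1, LaurentPolynomial.eval₂_C]

lemma b1_T : b1 R (LaurentPolynomial.T 1) = hx R (Sum.inl 0) := by
  rw [b1, LaurentPolynomial.eval₂_T, zpow_one]
  rfl

lemma b1_T' : b1 R (LaurentPolynomial.T (-1)) = ((ux R)⁻¹ : (Hyp (T1 R))ˣ) := by
  rw [b1, LaurentPolynomial.eval₂_T, zpow_neg, zpow_one]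

lemma b2_T : b2 R (LaurentPolynomial.T 1) = hx R (Sum.inr (Sum.inl 0)) := by
  rw [b2, LaurentPolynomial.eval₂_T, zpow_one]
  rfl

lemma b2_T' : b2 R (LaurentPolynomial.T (-1)) = ((uy R)⁻¹ : (Hyp (T1 R))ˣ) := by
  rw [b2, LaurentPolynomial.eval₂_T, zpow_neg, zpow_one]

lemma comp_one : (toLL R).toRingHom.comp (b2 R) = RingHom.id _ := by
  apply laurent_hom_ext
  · intro a
    change toLL R (b2 R (LaurentPolynomial.C a)) = LaurentPolynomial.C a
    rw [b2_C]
    have h : (toLL R).toRingHom.comp (b1 R) = LaurentPolynomial.C := by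
      apply laurent_hom_ext
      · intro r
        change toLL R (b1 R (LaurentPolynomial.C r)) = _
        rw [b1_C, AlgHom.commutes]
        rfl
      · change toLL R (b1 R (LaurentPolynomial.T 1)) = _
        rw [b1_T, toLL_hx]
        rfl
    exact congrArg (fun f => f a) h
  · change toLL R (b2 R (LaurentPolynomial.T 1)) = LaurentPolynomial.T 1
    rw [b2_T, toLL_hx]
    rfl

lemma b2_v1 (s : Fin 1 ⊕ (Fin 1 ⊕ Fin 1)) : b2 R (v1 R s) = hx R s := by
  rcases s with i | i | i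
  · rw [Subsingleton.elim i 0]
    change b2 R (LaurentPolynomial.C (LaurentPolynomial.T 1)) = _
    rw [b2_C, b1_T]
  · rw [Subsingleton.elim i 0]
    exact b2_T R
  · rw [Subsingleton.elim i 0]
    change b2 R (LaurentPolynomial.C (LaurentPolynomial.T (-1)) * LaurentPolynomial.T (-1)) = _
    rw [map_mul, b2_C, b1_T', b2_T']
    have h1 : (ux R : Hyp (T1 R)) = hx R (Sum.inl 0) := rfl
    have h2 : (uy R : Hyp (T1 R)) = hx R (Sum.inr (Sum.inl 0)) := rfl
    have h3 := hx_mul R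
    rw [← h1, ← h2] at h3
    have h4 : (ux R : Hyp (T1 R)) * ((ux R)⁻¹ : (Hyp (T1 R))ˣ) = 1 := Units.mul_inv _
    have h5 : (uy R : Hyp (T1 R)) * ((uy R)⁻¹ : (Hyp (T1 R))ˣ) = 1 := Units.mul_inv _
    calc (((ux R)⁻¹ : (Hyp (T1 R))ˣ) : Hyp (T1 R)) * ((uy R)⁻¹ : (Hyp (T1 R))ˣ)
        = ((ux R)⁻¹ : (Hyp (T1 R))ˣ) * ((uy R)⁻¹ : (Hyp (T1 R))ˣ) *
          ((ux R : Hyp (T1 R)) * uy R * hx R (Sum.inr (Sum.inr 0))) := by rw [h3, mul_one]
      _ = ((ux R : Hyp (T1 R)) * ((ux R)⁻¹ : (Hyp (T1 R))ˣ)) *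
          ((uy R : Hyp (T1 R)) * ((uy R)⁻¹ : (Hyp (T1 R))ˣ)) * hx R (Sum.inr (Sum.inr 0)) := by
            ring
      _ = hx R (Sum.inr (Sum.inr 0)) := by rw [h4, h5, one_mul, one_mul]

lemma comp_two : (b2 R).comp (toLL R).toRingHom = RingHom.id _ := by
  apply Ideal.Quotient.ringHom_ext
  apply MvPolynomial.ringHom_ext
  · intro r
    change b2 R (toLL R (algebraMap R (Hyp (T1 R)) r)) = algebraMap R (Hyp (T1 R)) r
    rw [AlgHom.commutes]
    have h : algebraMap R (LL R) r = LaurentPolynomial.C (LaurentPolynomial.C r) := rfl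
    rw [h, b2_C, b1_C]
  · intro s
    change b2 R (toLL R (hx R s)) = hx R s
    rw [toLL_hx, b2_v1]

/-- the hypersurface `x y z = 1` -/
noncomputable def hypOne : Hyp (T1 R) ≃ₐ[R] LL R :=
  AlgEquiv.ofRingEquiv (f := RingEquiv.ofRingHom (toLL R).toRingHom (b2 R) (comp_one R)
    (comp_two R)) (fun r => (toLL R).commutes r)

end Pool.Agent.J4H10.TF
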