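import Pool.Agent.J4H10.TF.Bnd
import Pool.Agent.J4H10.TF.Gm
import Pool.Agent.J4H10.TF.Arith

/-!
# Arithmetic schemes and trilinear forms
-/

set_option autoImplicit false

open CategoryTheory CategoryTheory.Limits AlgebraicGeometry MvPolynomial Pool.Agent.Y116.UV
  Pool.Agent.Z125.UN Pool.Agent.Q193.LT Pool.Agent.Q193.Zeta Pool.Agent.Q282.UK Pool.Agent.Q282.UZ
  Pool.Agent.J4H9.BS

namespace Pool.Agent.J4H10.TF

/-- `Q` is true for the hypersurfaces `T(x, y, z) = 1`, considered as schemes over `ℤ`, for all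
trilinear forms `T` over `R` one of whose three blocks of variables has at most `m` variables. -/
def Block (Q : Sch ℤ → Prop) (R : Type) [CommRing R] (m : ℕ) : Prop :=
  ∀ (a b c : ℕ) (T : Fin a → Fin b → Fin c → R), (a ≤ m ∨ b ≤ m ∨ c ≤ m) → Q (toInt (hypS T))

section base

variable {R : Type} [CommRing R] [hR : Algebra.FiniteType ℤ R] {Q : Sch ℤ → Prop} (hQ : Good Q)

include hQ

/-- The base, from the hypersurface `x y z = 1`. -/
theorem good_base (h : Q (toInt (hypS (T1 R)))) : Q (aff ℤ R) := by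
  have f1 : Algebra.FiniteType R (Hyp (T1 R)) := inferInstance
  have f2 : Algebra.FiniteType ℤ (LaurentPolynomial R) := ft_laurent (R := ℤ) R
  have f3 : Algebra.FiniteType ℤ (LL R) := ft_laurent (R := ℤ) (LaurentPolynomial R)
  have f4 : Algebra.FiniteType R (LL R) := by
    have := ft_laurent (R := R) R
    exact ft_laurent (R := R) (LaurentPolynomial R)
  have h1 : Q (toInt (aff R (LL R))) :=
    hQ.iso (ft_toInt (sep := False) (ft_aff False)) (isoInt (affIso (hypOne R)).symm) h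
  have h2 : Q (aff ℤ (LL R)) :=
    hQ.iso (ft_toInt (sep := False) (ft_aff False)) (affInt (R := R) (LL R)) h1
  exact hQ.torus R (hQ.torus (LaurentPolynomial R) h2)

/-- the base, from the hypersurfaces -/
theorem base_of_block {m : ℕ} (hm : 1 ≤ m) (h : Block Q R m) : Q (aff ℤ R) :=
  good_base hQ (h 1 1 1 (T1 R) (Or.inl hm))

end base

lemma iso_toInt (X : Sch ℤ) : Nonempty (toInt X ≅ X) := by
  refine ⟨Over.isoMk (Iso.refl _) ?_⟩
  change 𝟙 _ ≫ X.hom = X.hom ≫ Spec.map (CommRingCat.ofHom (algebraMap ℤ ℤ))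
  have h1 : CommRingCat.ofHom (algebraMap ℤ ℤ) = 𝟙 _ := rfl
  rw [h1, Spec.map_id, Category.comp_id, Category.id_comp]

section int

variable {Q : Sch ℤ → Prop} (hQ : Good Q)

include hQ

lemma of_toInt {X : Sch ℤ} (hX : FT False X) (h : Q (toInt X)) : Q X := by
  obtain ⟨e⟩ := iso_toInt X
  exact hQ.iso (ft_toInt hX) e h

lemma to_toInt {X : Sch ℤ} (hX : FT False X) (h : Q X) : Q (toInt X) := by
  obtain ⟨e⟩ := iso_toInt X
  exact hQ.iso hX e.symm h

/-- All schemes of finite type over `ℤ` and trilinear forms with coefficients `0` and `1`. -/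
theorem int_iff :
    (∀ X : Sch ℤ, LocallyOfFiniteType X.hom → QuasiCompact X.hom → Q X) ↔
      ∀ (a b c : ℕ) (T : Fin a → Fin b → Fin c → ℤ), (∀ i j k, T i j k = 0 ∨ T i j k = 1) →
        Q (hypS T) := by
  constructor
  · intro h a b c T _
    have hT : FT False (hypS T) := ft_aff False
    exact h _ hT.locallyOfFiniteType hT.quasiCompact
  · intro h X h1 h2
    have hX : FT False X := ⟨h1, h2, fun h => h.elim⟩
    have h0 : Q (aff ℤ ℤ) :=
      good_base hQ (to_toInt hQ (ft_aff False) (h 1 1 1 (T1 ℤ) fun _ _ _ => Or.inr rfl))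
    have h3 := universal (R := ℤ) (S := {0, 1}) (bnd_good (R := ℤ) hQ False).toUni
      (Or.inl rfl) (Or.inr rfl) (fun a b c T hT _ =>
        to_toInt hQ (ft_aff False) (h a b c T fun i j k => hT i j k))
      (presents_zero_one fun x => ⟨x, rfl⟩) X hX h0
    exact of_toInt hQ hX h3

end int

section field

variable {Q : Sch ℤ → Prop} (hQ : Good Q) (k : Type) [Field k] [Finite k]

instance ft_field : Algebra.FiniteType ℤ k :=
  have : Module.Finite ℤ k := Module.Finite.of_finite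
  inferInstance

include hQ

/-- from trilinear forms over a finite field to schemes of dimension at most `d` -/
theorem field_of_block (d : ℕ) (h : Block Q k (d + 2)) (X : Sch k) (hX : FT False X)
    (hn : topologicalKrullDim X.left ≤ d) : Q (toInt X) := by
  have h0 := base_of_block hQ (R := k) (m := d + 2) (by omega) h
  exact (dim_tri (bnd_good (R := k) hQ False) d).mpr
    (fun a b T _ => h a b (d + 2) T (Or.inr (Or.inr le_rfl))) X hX hn h0

end field

lemma gens_int (B : Type) [CommRing B] [IsDomain B] [CharZero B] [i : Algebra ℤ B]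
    [Algebra.FiniteType ℤ B] {n : ℕ} (hn : ringKrullDim B ≤ (n + 1 : ℕ)) :
    ∃ w : B, w ≠ 0 ∧ ∃ (φ : MvPolynomial (Fin (n + 1)) ℤ →ₐ[ℤ] Localization.Away w)
      (g : MvPolynomial (Fin (n + 1)) ℤ), IsUnit (φ g) ∧
        ∀ a, ∃ (m : ℕ) (p : MvPolynomial (Fin (n + 1)) ℤ), φ g ^ m * a = φ p := by
  obtain rfl : i = Ring.toIntAlgebra B := Subsingleton.elim _ _
  obtain ⟨x, hx⟩ := exists_gens_int (B := B) hn
  refine exists_emb_ring x fun y => ?_
  obtain ⟨p, q, h1, h2⟩ := hx y
  refine ⟨p, q, ?_, ?_⟩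
  · convert h1
  · convert h2

lemma topDim_int (B : Type) [CommRing B] [Algebra ℤ B] :
    topologicalKrullDim (aff ℤ B).left = ringKrullDim B :=
  PrimeSpectrum.topologicalKrullDim_eq_ringKrullDim B

section

variable {sep : Prop} {P : Sch ℤ → Prop} (hP : Bnd sep P)

include hP

lemma p_int {n : ℕ} (h : ∀ I : Ideal (MvPolynomial (Fin (n + 1)) ℤ),
      P (aff ℤ (MvPolynomial (Fin (n + 1)) ℤ ⧸ I)))
    (hp : ∀ (p : ℕ) [Fact p.Prime] (B : Type) [CommRing B] [Algebra ℤ B] [Algebra.FiniteType ℤ B]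
      [CharP B p], ringKrullDim B ≤ (n + 1 : ℕ) → P (aff ℤ B))
    (A : Type) [CommRing A] [Algebra ℤ A] [Algebra.FiniteType ℤ A]
    (hA : ringKrullDim A ≤ (n + 1 : ℕ)) : P (aff ℤ A) := by
  refine noeth hP (fun B _ _ hB => p_empty hP B hB) fun p hpr => ?_
  have hd : ringKrullDim (A ⧸ p) ≤ (n + 1 : ℕ) := (ringKrullDim_quotient_le p).trans hA
  obtain ⟨q, hq⟩ := CharP.exists (A ⧸ p)
  rcases CharP.char_is_prime_or_zero (A ⧸ p) q with h1 | h1
  · have : Fact q.Prime := ⟨h1⟩
    refine ⟨1, one_ne_zero, ?_⟩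
    have e := IsLocalization.atUnits (A ⧸ p) (Submonoid.powers (1 : A ⧸ p))
      (S := Localization.Away (1 : A ⧸ p)) (by rintro _ ⟨n, rfl⟩; simp)
    exact iso_alg hP.toUni (e.restrictScalars ℤ) (hp q (A ⧸ p) hd)
  · subst h1
    have : CharZero (A ⧸ p) := CharP.charP_to_charZero _
    obtain ⟨w, hw, φ, g, h1, h2⟩ := gens_int (A ⧸ p) hd
    exact ⟨w, hw, p_emb hP h φ g h1 h2⟩

lemma int_affine_dim {n : ℕ} (h : ∀ (A : Type) [CommRing A] [Algebra ℤ A]
    [Algebra.FiniteType ℤ A], ringKrullDim A ≤ n → P (aff ℤ A)) (X : Sch ℤ) (hX : FT sep X)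
    (hn : topologicalKrullDim X.left ≤ n) : P X := by
  refine of_affine' (P := fun X => topologicalKrullDim X.left ≤ n → P X) (sep := sep) ?_ ?_ ?_ X
    hX hn
  · intro X Y hX e hPX hY
    refine hP.iso hX e (hPX ?_)
    obtain ⟨e⟩ := e
    let f := (Over.forget _).mapIso e
    exact (Topology.IsInducing.topologicalKrullDim_le
      (Scheme.homeoOfIso f).isInducing).trans hY
  · intro Z X U i j hX ht hZ hU hn
    refine hP.total i j hX ht (hZ ?_) (hU ?_)
    · have h1 := (have := ht.closed; i.left.isClosedEmbedding.isInducing)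
      exact h1.topologicalKrullDim_le.trans hn
    · have h1 := (have := ht.opened; j.left.isOpenEmbedding.isInducing)
      exact h1.topologicalKrullDim_le.trans hn
  · intro A _ _ _ hA
    rw [topDim_int] at hA
    exact h A hA

end

lemma dim_ring_quot (R : Type) [CommRing R] [IsDomain R] [IsNoetherianRing R] {e N D : ℕ}
    (he : ringKrullDim R ≤ e) (hD : e + N ≤ D + 1) (I : Ideal (MvPolynomial (Fin N) R)) (hI : I ≠ ⊥) :
    ringKrullDim (MvPolynomial (Fin N) R ⧸ I) ≤ D := by
  obtain ⟨f, hf, hf0⟩ := Submodule.exists_mem_ne_zero_of_ne_bot hI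
  have h1 : ringKrullDim (MvPolynomial (Fin N) R ⧸ Ideal.span {f}) + 1 ≤
      ringKrullDim (MvPolynomial (Fin N) R) :=
    ringKrullDim_quotient_succ_le_of_nonZeroDivisor (mem_nonZeroDivisors_of_ne_zero hf0)
  rw [MvPolynomial.ringKrullDim_of_isNoetherianRing, Nat.card_eq_fintype_card,
    Fintype.card_fin] at h1
  have h2 : ringKrullDim (MvPolynomial (Fin N) R ⧸ I) ≤
      ringKrullDim (MvPolynomial (Fin N) R ⧸ Ideal.span {f}) := by
    have hle : Ideal.span {f} ≤ I := by
      rw [Ideal.span_le, Set.singleton_subset_iff]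
      exact hf
    exact ringKrullDim_le_of_surjective (Ideal.Quotient.factor hle)
      (Ideal.Quotient.factor_surjective hle)
  refine h2.trans ?_
  have h3 : ringKrullDim (MvPolynomial (Fin N) R ⧸ Ideal.span {f}) + 1 ≤
      ((D + 1 : ℕ) : WithBot ℕ∞) := by
    refine h1.trans ?_
    calc ringKrullDim R + ((N : ℕ) : WithBot ℕ∞) ≤ ((e : ℕ) : WithBot ℕ∞) + ((N : ℕ) : WithBot ℕ∞) :=
          add_le_add_left he _
      _ = ((e + N : ℕ) : WithBot ℕ∞) := by push_cast; rfl
      _ ≤ ((D + 1 : ℕ) : WithBot ℕ∞) := by exact_mod_cast hD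
  rw [ENat.WithBot.add_one_le_natCast_iff] at h3
  have h4 : ((D + 1 : ℕ) : WithBot ℕ∞) = (D : WithBot ℕ∞) + 1 := by push_cast; rfl
  rw [h4] at h3
  exact ENat.WithBot.lt_add_one_iff.mp h3

section dim

variable {Q : Sch ℤ → Prop} (hQ : Good Q)

/-- all schemes of finite type over `ℤ` and of dimension at most `D` -/
def DimLE (Q : Sch ℤ → Prop) (D : ℕ) : Prop :=
  ∀ X : Sch ℤ, LocallyOfFiniteType X.hom → QuasiCompact X.hom →
    topologicalKrullDim X.left ≤ D → Q X

include hQ

/-- from schemes of dimension at most `D` to trilinear forms -/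
theorem block_of_dim {D : ℕ} (h : DimLE Q D) (R : Type) [CommRing R] [IsDomain R]
    [Algebra.FiniteType ℤ R] {e m : ℕ} (he : ringKrullDim R ≤ e) (h1 : e ≤ D)
    (h2 : m + e ≤ D + 2) : Block Q R m := by
  intro a b c T hm
  have hN : IsNoetherianRing R := Algebra.FiniteType.isNoetherianRing ℤ R
  have hB := bnd_good (R := R) hQ False
  obtain ⟨N, hN1, hN2⟩ : ∃ N : ℕ, e + N = D + 1 ∧ m ≤ N + 1 := ⟨D + 1 - e, by omega, by omega⟩
  have h0 : Q (aff ℤ R) := by
    have hF : FT False (aff ℤ R) := ft_aff False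
    refine h _ hF.locallyOfFiniteType hF.quasiCompact ?_
    rw [topDim_int]
    exact he.trans (by exact_mod_cast h1)
  have h3 : ∀ I : Ideal (MvPolynomial (Fin N) R), Q (aff ℤ R) →
      Q (toInt (aff R (MvPolynomial (Fin N) R ⧸ I))) := by
    intro I _
    by_cases hI : I = ⊥
    · subst hI
      exact iso_alg hB.toUni (AlgEquiv.quotientBot R _).symm (hB.space N) h0
    · have hft : Algebra.FiniteType ℤ (MvPolynomial (Fin N) R ⧸ I) := ft_trans (R := R) _
      have hF : FT False (aff ℤ (MvPolynomial (Fin N) R ⧸ I)) := ft_aff False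
      refine hQ.iso hF (affInt (R := R) _).symm (h _ hF.locallyOfFiniteType hF.quasiCompact ?_)
      rw [topDim_int]
      exact dim_ring_quot R he (by omega) I hI
  refine of_block hB (fun a b c' hc' T => to_tri hB h3 a b c' hc' T) (c := N + 1) T ?_ h0
  omega

/-- from trilinear forms to schemes of dimension at most `D` -/
theorem dim_of_block {D : ℕ} (hD : 1 ≤ D) (hz : Block Q ℤ (D + 1))
    (hp : ∀ (p : ℕ) [Fact p.Prime], Block Q (ZMod p) (D + 2)) : DimLE Q D := by
  obtain ⟨d, rfl⟩ : ∃ d, D = d + 1 := ⟨D - 1, by omega⟩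
  intro X hX1 hX2 hn
  have hB := bnd_good (R := ℤ) hQ False
  have hX : FT False X := ⟨hX1, hX2, fun h => h.elim⟩
  have h0 : Q (aff ℤ ℤ) := base_of_block hQ (R := ℤ) (m := d + 1 + 1) (by omega) hz
  refine of_toInt hQ hX (int_affine_dim (n := d + 1) hB ?_ X hX hn h0)
  refine p_int hB ((graded hB (d + 1)).mpr fun a b T _ =>
    hz a b (d + 1 + 1) T (Or.inr (Or.inr le_rfl))) ?_
  intro p _ B _ i hft hch hBd _
  obtain rfl : i = Ring.toIntAlgebra B := Subsingleton.elim _ _
  let _ : Algebra (ZMod p) B := ZMod.algebra B p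
  have hst : IsScalarTower ℤ (ZMod p) B := IsScalarTower.of_algebraMap_eq' (RingHom.ext_int _ _)
  have hft2 : Algebra.FiniteType (ZMod p) B :=
    Algebra.FiniteType.of_restrictScalars_finiteType ℤ _ _
  have h1 := field_of_block hQ (ZMod p) (d + 1) (hp p)
    (aff (ZMod p) B) (ft_aff False) (by
      rw [topDim_aff]
      exact hBd)
  exact to_toInt hQ (ft_aff False)
    (hQ.iso (ft_toInt (sep := False) (ft_aff False)) (affInt (R := ZMod p) B) h1)

/-- Schemes of dimension at most `D` and trilinear forms. -/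
theorem dim_tfae {D : ℕ} (hD : 1 ≤ D) : List.TFAE [
    DimLE Q D,
    ∀ (R : Type) [CommRing R] [IsDomain R] [Algebra.FiniteType ℤ R] (e m : ℕ),
      ringKrullDim R ≤ e → e ≤ D → m + e ≤ D + 2 → Block Q R m,
    Block Q ℤ (D + 1) ∧ ∀ (p : ℕ) [Fact p.Prime], Block Q (ZMod p) (D + 2)] := by
  tfae_have 1 → 2 := by
    intro h R _ _ _ e m he h1 h2
    exact block_of_dim hQ h R he h1 h2
  tfae_have 2 → 3 := by
    intro h
    refine ⟨h ℤ 1 (D + 1) (IsPrincipalIdealRing.ringKrullDim_eq_one ℤ Int.not_isField).le hD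
      (by omega), fun p _ => h (ZMod p) 0 (D + 2) ?_ (by omega) (by omega)⟩
    rw [ringKrullDim_eq_zero_of_field]
    rfl
  tfae_have 3 → 1 := fun h => dim_of_block hQ hD h.1 h.2
  tfae_finish

end dim

/-- `Q` is true for the hypersurfaces `T(x, y, z) = 1`, considered as schemes over `ℤ`, for all
trilinear forms `T` over `R` one of whose three blocks of variables has at most `m` variables. -/
def BlockZ (Q : Sch ℤ → Prop) (R : Type) [CommRing R] (m : ℕ) : Prop :=
  ∀ (a b c : ℕ) (T : Fin a → Fin b → Fin c → R), (a ≤ m ∨ b ≤ m ∨ c ≤ m) → Q (aff ℤ (Hyp T))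

section blockZ

variable {Q : Sch ℤ → Prop} (hQ : Good Q) {R : Type} [CommRing R] [Algebra.FiniteType ℤ R] {m : ℕ}

include hQ

lemma to_blockZ (h : Block Q R m) : BlockZ Q R m := by
  intro a b c T hm
  have hft : Algebra.FiniteType ℤ (Hyp T) := ft_trans (R := R) _
  exact hQ.iso (ft_toInt (sep := False) (ft_aff False)) (affInt (R := R) (Hyp T)) (h a b c T hm)

lemma of_blockZ (h : BlockZ Q R m) : Block Q R m := by
  intro a b c T hm
  have hft : Algebra.FiniteType ℤ (Hyp T) := ft_trans (R := R) _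
  exact hQ.iso (ft_aff False) (affInt (R := R) (Hyp T)).symm (h a b c T hm)

end blockZ

/-- Schemes of dimension at most `D` and trilinear forms. -/
theorem dim_tfaeZ {Q : Sch ℤ → Prop} (hQ : Good Q) {D : ℕ} (hD : 1 ≤ D) : List.TFAE [
    DimLE Q D,
    ∀ (R : Type) [CommRing R] [IsDomain R] [Algebra.FiniteType ℤ R] (e m : ℕ),
      ringKrullDim R ≤ e → e ≤ D → m + e ≤ D + 2 → BlockZ Q R m,
    BlockZ Q ℤ (D + 1) ∧ ∀ (p : ℕ) [Fact p.Prime], BlockZ Q (ZMod p) (D + 2)] := by
  tfae_have 1 → 2 := by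
    intro h R _ _ _ e m he h1 h2
    exact to_blockZ hQ (block_of_dim hQ h R he h1 h2)
  tfae_have 2 → 3 := by
    intro h
    refine ⟨h ℤ 1 (D + 1) (IsPrincipalIdealRing.ringKrullDim_eq_one ℤ Int.not_isField).le hD
      (by omega), fun p _ => h (ZMod p) 0 (D + 2) ?_ (by omega) (by omega)⟩
    rw [ringKrullDim_eq_zero_of_field]
    rfl
  tfae_have 3 → 1 := fun h => dim_of_block hQ hD (of_blockZ hQ h.1) fun p _ => of_blockZ hQ (h.2 p)
  tfae_finish

/-- The hypersurface `T(x, y, z) = 1` is smooth over `R`. -/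
theorem smooth_hyp {R : Type} [CommRing R] {a b c : ℕ} (T : Fin a → Fin b → Fin c → R) :
    Smooth (hypS T).hom := by
  change Smooth (Spec.map (CommRingCat.ofHom (algebraMap R (Hyp T))))
  rw [HasRingHomProperty.Spec_iff (P := @Smooth)]
  exact RingHom.smooth_algebraMap.mpr (hyp_smooth T)

end Pool.Agent.J4H10.TF
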