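import Pool.Agent.J4H10.TF.Main

/-!
# Trilinear forms and intersections of bilinear quadrics
-/

set_option autoImplicit false

open CategoryTheory CategoryTheory.Limits AlgebraicGeometry MvPolynomial Pool.Agent.Y116.UV
  Pool.Agent.Z125.UN Pool.Agent.Q193.LT Pool.Agent.Q193.Zeta Pool.Agent.Q282.UK Pool.Agent.Q282.UZ
  Pool.Agent.J4H9.BS

namespace Pool.Agent.J4H10.TF

/-- The ring `R[y, z] / (B_1(y, z), …, B_m(y, z))` of functions on the intersection of the quadrics
`B_i(y, z) = 0` of the bilinear forms `B_i` in the affine space. -/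
abbrev Quad {R : Type} [CommRing R] {m b c : ℕ} (B : Fin m → Fin b → Fin c → R) : Type :=
  MvPolynomial (Fin b ⊕ Fin c) R ⧸ Ideal.span (Set.range fun i : Fin m =>
    (∑ j, ∑ k, C (B i j k) * X (Sum.inl j) * X (Sum.inr k) : MvPolynomial (Fin b ⊕ Fin c) R))

section bnd

variable {R : Type} [CommRing R] {sep : Prop} {P : Sch R → Prop} (hP : Bnd sep P)

lemma triple_jou {A : Type} [CommRing A] [Algebra R A] {m : ℕ} (f : Fin m → A) :
    IsTriple (affMap (Ideal.Quotient.mkₐ R (Ideal.span (Set.range f))))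
      (opnMap (aff R A) (neOpen R f)) := by
  refine ⟨closed_affMap _ (Ideal.Quotient.mkₐ_surjective R _), inferInstance, ?_⟩
  rw [range_affMap _ (Ideal.Quotient.mkₐ_surjective R _), range_opnMap]
  ext x
  change (∀ a, Ideal.Quotient.mk (Ideal.span (Set.range f)) a = 0 → a ∈ x.asIdeal) ↔
    ¬ ∃ l, f l ∉ x.asIdeal
  push Not
  constructor
  · intro h l
    exact h (f l) (Ideal.Quotient.eq_zero_iff_mem.mpr (Ideal.subset_span ⟨l, rfl⟩))
  · intro h a ha
    rw [Ideal.Quotient.eq_zero_iff_mem] at ha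
    refine (Ideal.span_le.mpr ?_ : Ideal.span (Set.range f) ≤ x.asIdeal) ha
    rintro _ ⟨l, rfl⟩
    exact h l

include hP

lemma space_bc (b c : ℕ) : P (aff R (MvPolynomial (Fin b ⊕ Fin c) R)) :=
  iso_alg hP.toUni (renameEquiv R (Fintype.equivFin (Fin b ⊕ Fin c)).symm) (hP.space _)

/-- from the hypersurface to the intersection of quadrics -/
theorem quad_of_hyp {m b c : ℕ} (B : Fin m → Fin b → Fin c → R) (h : P (aff R (Hyp B))) :
    P (aff R (Quad B)) :=
  of_jou hP.toUni (fun i => bil (Fin b) (Fin c) (B i)) (space_bc hP b c)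
    (iso_alg hP.toUni (hypEquiv B) h)

/-- from the intersection of quadrics to the hypersurface -/
theorem hyp_of_quad {m b c : ℕ} (B : Fin m → Fin b → Fin c → R) (h : P (aff R (Quad B))) :
    P (aff R (Hyp B)) := by
  have hU := hP.opened _ _ (ft_aff sep) (triple_jou (R := R) fun i => bil (Fin b) (Fin c) (B i)) h
    (space_bc hP b c)
  have hJ := hP.bundle _ m (fun i => bil (Fin b) (Fin c) (B i)) _
    (opnMap (aff R (MvPolynomial (Fin b ⊕ Fin c) R)) (neOpen R _)) inferInstance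
    (range_opnMap _ _) hU
  have : Algebra.FiniteType R (Jou fun i => bil (Fin b) (Fin c) (B i)) :=
    Algebra.FiniteType.equiv (inferInstance : Algebra.FiniteType R (Hyp B)) (hypEquiv B)
  exact iso_alg hP.toUni (hypEquiv B).symm hJ

/-- a short block in any place -/
theorem hyps_of_quads {m : ℕ} (h : ∀ (r b c : ℕ) (B : Fin r → Fin b → Fin c → R), r ≤ m →
    P (aff R (Quad B))) {a b c : ℕ} (T : Fin a → Fin b → Fin c → R) (hm : a ≤ m ∨ b ≤ m ∨ c ≤ m) :
    P (aff R (Hyp T)) := by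
  rcases hm with hm | hm | hm
  · exact hyp_of_quad hP T (h _ _ _ T hm)
  · exact iso_alg hP.toUni (swapL T).symm (hyp_of_quad hP _ (h _ _ _ _ hm))
  · exact iso_alg hP.toUni ((swapR T).trans (swapL fun i k j => T i j k)).symm
      (hyp_of_quad hP _ (h _ _ _ _ hm))

end bnd

/-- `Q` is true for the intersections of at most `m` quadrics `B_i(y, z) = 0`, `B_i` bilinear over `R`,
in affine spaces over `R`, considered as schemes over `ℤ`. -/
def QuadZ (Q : Sch ℤ → Prop) (R : Type) [CommRing R] (m : ℕ) : Prop :=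
  ∀ (r b c : ℕ) (B : Fin r → Fin b → Fin c → R), r ≤ m → Q (aff ℤ (Quad B))

section good

variable {Q : Sch ℤ → Prop} (hQ : Good Q) {R : Type} [CommRing R] [hR : Algebra.FiniteType ℤ R]

/-- no quadrics in the affine space of dimension zero -/
noncomputable def quadZero (R : Type) [CommRing R] (B : Fin 0 → Fin 0 → Fin 0 → R) :
    Quad B ≃ₐ[ℤ] R :=
  (Ideal.quotientEquivAlgOfEq ℤ (by
    rw [Set.range_eq_empty, Ideal.span_empty])).trans
    ((AlgEquiv.quotientBot ℤ (MvPolynomial (Fin 0 ⊕ Fin 0) R)).trans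
      ((isEmptyAlgEquiv R (Fin 0 ⊕ Fin 0)).restrictScalars ℤ))

include hQ

theorem base_of_quad {m : ℕ} (h : QuadZ Q R m) : Q (aff ℤ R) := by
  let B : Fin 0 → Fin 0 → Fin 0 → R := fun _ _ _ => 0
  have h1 := h 0 0 0 B (Nat.zero_le m)
  have h2 : Algebra.FiniteType ℤ (Quad B) := ft_trans (R := R) _
  exact hQ.iso (ft_aff False) (affIso (quadZero R B)).symm h1

theorem quad_of_blockZ {m : ℕ} (h0 : Q (aff ℤ R)) (h : BlockZ Q R m) : QuadZ Q R m := by
  intro r b c B hr
  have f1 : Algebra.FiniteType ℤ (Hyp B) := ft_trans (R := R) _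
  have f2 : Algebra.FiniteType ℤ (Quad B) := ft_trans (R := R) _
  have h1 : Q (toInt (aff R (Hyp B))) :=
    hQ.iso (ft_aff False) (affInt (R := R) (Hyp B)).symm (h r b c B (Or.inl hr))
  have h2 := quad_of_hyp (bnd_good (R := R) hQ False) B (fun _ => h1) h0
  exact hQ.iso (ft_toInt (sep := False) (ft_aff False)) (affInt (R := R) (Quad B)) h2

theorem blockZ_of_quad {m : ℕ} (h : QuadZ Q R m) : BlockZ Q R m := by
  have h0 := base_of_quad hQ h
  intro a b c T hm
  have f1 : Algebra.FiniteType ℤ (Hyp T) := ft_trans (R := R) _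
  have h2 := hyps_of_quads (bnd_good (R := R) hQ False) (m := m) (fun r b' c' B hr _ => by
    have f2 : Algebra.FiniteType ℤ (Quad B) := ft_trans (R := R) _
    exact hQ.iso (ft_aff False) (affInt (R := R) (Quad B)).symm (h r b' c' B hr)) T hm h0
  exact hQ.iso (ft_toInt (sep := False) (ft_aff False)) (affInt (R := R) (Hyp T)) h2

end good

/-- All schemes of finite type over `ℤ` and intersections of bilinear quadrics with coefficients `0`
and `1`. -/
theorem int_quad {Q : Sch ℤ → Prop} (hQ : Good Q) :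
    (∀ X : Sch ℤ, LocallyOfFiniteType X.hom → QuasiCompact X.hom → Q X) ↔
      ∀ (m b c : ℕ) (B : Fin m → Fin b → Fin c → ℤ), (∀ i j k, B i j k = 0 ∨ B i j k = 1) →
        Q (aff ℤ (Quad B)) := by
  constructor
  · intro h m b c B _
    have hT : FT False (aff ℤ (Quad B)) := ft_aff False
    exact h _ hT.locallyOfFiniteType hT.quasiCompact
  · intro h
    rw [int_iff hQ]
    intro a b c T hT
    have h0 : Q (aff ℤ ℤ) := by
      let B : Fin 0 → Fin 0 → Fin 0 → ℤ := fun _ _ _ => 0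
      exact hQ.iso (ft_aff False) (affIso (quadZero ℤ B)).symm (h 0 0 0 B fun i => i.elim0)
    have h2 := hyp_of_quad (bnd_good (R := ℤ) hQ False) T
      (fun _ => to_toInt hQ (ft_aff False) (h a b c T hT)) h0
    exact of_toInt hQ (ft_aff False) h2

/-- Schemes of dimension at most `D` and intersections of bilinear quadrics. -/
theorem dim_quad {Q : Sch ℤ → Prop} (hQ : Good Q) {D : ℕ} (hD : 1 ≤ D) : List.TFAE [
    DimLE Q D,
    ∀ (R : Type) [CommRing R] [IsDomain R] [Algebra.FiniteType ℤ R] (e m : ℕ),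
      ringKrullDim R ≤ e → e ≤ D → m + e ≤ D + 2 → QuadZ Q R m,
    QuadZ Q ℤ (D + 1) ∧ ∀ (p : ℕ) [Fact p.Prime], QuadZ Q (ZMod p) (D + 2)] := by
  have key := dim_tfaeZ hQ hD
  tfae_have 1 → 2 := by
    intro h R _ _ _ e m he h1 h2
    have h3 := (key.out 0 1).1 h
    have h4 := h3 R e 2 he h1 (by omega)
    exact quad_of_blockZ hQ (base_of_block hQ (m := 2) (by omega) (of_blockZ hQ h4))
      (h3 R e m he h1 h2)
  tfae_have 2 → 3 := by
    intro h
    refine ⟨h ℤ 1 (D + 1) (IsPrincipalIdealRing.ringKrullDim_eq_one ℤ Int.not_isField).le hD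
      (by omega), fun p _ => h (ZMod p) 0 (D + 2) ?_ (by omega) (by omega)⟩
    rw [ringKrullDim_eq_zero_of_field]
    rfl
  tfae_have 3 → 1 := by
    intro h
    have h3 : BlockZ Q ℤ (D + 1) ∧ ∀ (p : ℕ) [Fact p.Prime], BlockZ Q (ZMod p) (D + 2) :=
      ⟨blockZ_of_quad hQ h.1, fun p _ => blockZ_of_quad hQ (h.2 p)⟩
    exact (key.out 2 0).1 h3
  tfae_finish

end Pool.Agent.J4H10.TF
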