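import Pool.Agent.J4H9.SVClo
import Pool.Agent.Q193.LT.Key
import Pool.Agent.J4H10.TF.Gm

/-!
# The strong Tate property and trilinear forms
-/

set_option autoImplicit false

open CategoryTheory CategoryTheory.Limits AlgebraicGeometry MvPolynomial Pool.Agent.Y116.UV
  Pool.Agent.Z125.UN Pool.Agent.Q193.LT Pool.Agent.J4H9.SV TensorProduct

universe w

namespace Pool.Agent.J4H10.TF

variable {k : Type} [Field k] {E : Type} [Field E]

/-- The groups for `X` in the degrees `i`, `j` are direct factors of those for `Y` in the degrees `i'`,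
`j'`, compatibly with the Frobenius and the cycle map. -/
def Factor (T : CycleTheory.{w} k E) (i j : ℤ) (X : Sch k) (i' j' : ℤ) (Y : Sch k) : Prop :=
  ∃ (s : T.C i j X ⟶ T.C i' j' Y) (s' : T.H i j X ⟶ T.H i' j' Y) (r : T.C i' j' Y ⟶ T.C i j X)
    (r' : T.H i' j' Y ⟶ T.H i j X), Compat T s s' ∧ Compat T r r' ∧ s ≫ r = 𝟙 _ ∧ s' ≫ r' = 𝟙 _

/-- The properties of cycles and étale homology which are used: those of `IsCycleTheory`, the affine
bundles of Jouanolou, and the product with the multiplicative group. -/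
structure IsTheoryJ (T : CycleTheory.{w} k E) : Prop extends IsCycleTheory T where
  jou : ∀ (B : Type) [CommRing B] [Algebra k B] [Algebra.FiniteType k B] (r : ℕ) (f : Fin r → B)
    (U : Sch k) (j : U ⟶ aff k B), IsOpenImmersion j.left →
    Set.range j.left = {x : PrimeSpectrum B | ∃ l, f l ∉ x.asIdeal} →
    ∀ i l : ℤ, Same T (i + (r - 1)) l (aff k (Jou f)) i l U
  torus : ∀ (B : Type) [CommRing B] [Algebra k B] [Algebra.FiniteType k B] (i l : ℤ),
    Factor T i l (aff k B) (i + 1) l (aff k (LaurentPolynomial B))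

/-- the Tate twist -/
def tw : ℤ × ℤ ≃ ℤ × ℤ := Equiv.prodCongr (Equiv.addRight 1) (Equiv.refl ℤ)

lemma tw_zpow (n : ℤ) (p : ℤ × ℤ) : ((tw : Equiv.Perm (ℤ × ℤ)) ^ n) p = (p.1 + n, p.2) := by
  induction n generalizing p with
  | zero => simp
  | succ n ih =>
    rw [zpow_add, zpow_one, Equiv.Perm.mul_apply, ih]
    change (p.1 + 1 + (n : ℤ), p.2) = _
    ext <;> simp <;> ring
  | pred n ih =>
    rw [zpow_sub, zpow_one, Equiv.Perm.mul_apply, ih]
    have h : (tw : Equiv.Perm (ℤ × ℤ))⁻¹ p = (p.1 - 1, p.2) := by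
      rw [Equiv.Perm.inv_eq_iff_eq]
      change p = (p.1 - 1 + 1, p.2)
      ext <;> simp
    rw [h]
    ext <;> simp <;> ring

variable [CharZero E] {T : CycleTheory.{w} k E} (hT : IsTheoryJ T)

lemma factorAt_of_factor (hT : IsCycleTheory T) {i j : ℤ} {X : Sch k} {i' j' : ℤ} {Y : Sch k}
    (h : Factor T i j X i' j' Y) : FactorAt (cmpData T hT.fixed) (i, j) X (i', j') Y := by
  obtain ⟨s, s', r, r', h1, h2, h3, h4⟩ := h
  refine ⟨ModuleCat.ofHom (s.hom.baseChange E), ModuleCat.ofHom (r.hom.baseChange E),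
    ModuleCat.ofHom (genMap s'.hom h1.frob), ModuleCat.ofHom (genMap r'.hom h2.frob), ?_, ?_, ?_, ?_⟩
  · apply ModuleCat.hom_ext
    have h5 : r.hom ∘ₗ s.hom = LinearMap.id := by
      rw [← ModuleCat.hom_comp, h3]
      rfl
    change r.hom.baseChange E ∘ₗ s.hom.baseChange E = LinearMap.id
    rw [← LinearMap.baseChange_comp, h5, LinearMap.baseChange_id]
  · apply ModuleCat.hom_ext
    refine LinearMap.ext fun x => Subtype.ext ?_
    change r'.hom (s'.hom x.1) = x.1
    have h5 : r'.hom ∘ₗ s'.hom = LinearMap.id := by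
      rw [← ModuleCat.hom_comp, h4]
      rfl
    exact LinearMap.congr_fun h5 x.1
  · apply ModuleCat.hom_ext
    exact cmp_natural (hT.fixed i j X) (hT.fixed i' j' Y) s.hom s'.hom h1.frob h1.cl
  · apply ModuleCat.hom_ext
    exact cmp_natural (hT.fixed i' j' Y) (hT.fixed i j X) r.hom r'.hom h2.frob h2.cl

include hT

theorem isPair : IsPair (cmpData T hT.fixed) shift tw tw where
  iso hX e p := sameAt_of_same hT.toIsCycleTheory (hT.iso hX e p.1 p.2)
  les i j hX ht := Or.inr (lesPair_of_localization hT.toIsCycleTheory (ft_closed hX ht) hX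
    (ft_opened hX ht) (hT.les i j hX ht))
  bundle B _ _ _ m f U j hj hr q := by
    rw [tw_zpow]
    have h1 := sameAt_of_same hT.toIsCycleTheory (hT.jou B m f U j hj hr (q.1 + (1 - m)) q.2)
    have h2 : q.1 + (1 - (m : ℤ)) + (m - 1) = q.1 := by ring
    rw [h2] at h1
    exact h1
  torus B _ _ _ q := factorAt_of_factor hT.toIsCycleTheory (hT.torus B q.1 q.2)

/-- The base, from the hypersurface `x y z = 1`. -/
theorem tate_base (h : StrongTate T (hypS (T1 k))) : BijAll (cmpData T hT.fixed) (aff k k) := by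
  have hP := isPair hT
  have f2 : Algebra.FiniteType k (LaurentPolynomial k) := ft_laurent (R := k) k
  have f4 : Algebra.FiniteType k (LL k) := ft_laurent (R := k) (LaurentPolynomial k)
  have h1 : BijAll (cmpData T hT.fixed) (aff k (LL k)) := fun p =>
    (hP.iso (ft_aff True) ⟨(affIso (hypOne k)).symm⟩ p).iff.mp
      ((strongTate_iff hT.toIsCycleTheory (ft_aff True)).mp h p)
  have h2 : BijAll (cmpData T hT.fixed) (aff k (LaurentPolynomial k)) := fun p =>
    (hP.torus (LaurentPolynomial k) p).bij (h1 _)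
  exact fun p => (hP.torus k p).bij (h2 _)

/-- Schemes of dimension at most `d`, and trilinear forms. -/
theorem tate_dim [PerfectField k] (d : ℕ) : List.TFAE [
    ∀ X : Sch k, FT True X → topologicalKrullDim X.left ≤ d → StrongTate T X,
    ∀ X : Sch k, FT True X → Smooth X.hom → topologicalKrullDim X.left ≤ d → StrongTate T X,
    ∀ (a b c : ℕ) (t : Fin a → Fin b → Fin c → k), (a ≤ d + 2 ∨ b ≤ d + 2 ∨ c ≤ d + 2) →
      StrongTate T (hypS t)] := by
  have hst : ∀ X : Sch k, FT True X → (StrongTate T X ↔ BijAll (cmpData T hT.fixed) X) :=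
    fun X hX => strongTate_iff hT.toIsCycleTheory hX
  tfae_have 1 → 2 := fun h X hX _ hn => h X hX hn
  tfae_have 2 → 3 := by
    intro h a b c t hm
    have h1 : BijAll (cmpData T hT.fixed) (aff k k) := by
      refine (hst _ (ft_aff True)).mp (h (aff k k) (ft_aff True) (smooth_aff inferInstance) ?_)
      rw [topDim_aff, ringKrullDim_eq_zero_of_field]
      exact_mod_cast Nat.zero_le d
    refine (hst _ (ft_aff True)).mpr ((smooth_iff (bnd_pair (isPair hT) h1) d).mp
      (fun X hX hs hn => (hst X hX).mp (h X hX hs hn)) a b c t hm)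
  tfae_have 3 → 1 := by
    intro h X hX hn
    have h1 := tate_base hT (h 1 1 1 (T1 k) (Or.inl (by omega)))
    exact (hst X hX).mpr ((dim_iff (bnd_pair (isPair hT) h1) d).mpr
      (fun a b c t hm => (hst _ (ft_aff True)).mp (h a b c t hm)) X hX hn)
  tfae_finish

/-- All schemes, and trilinear forms with coefficients in `S`. -/
theorem tate_all {S : Set k} (h0 : 0 ∈ S) (h1 : 1 ∈ S) (hS : Presents S) :
    (∀ X : Sch k, FT True X → StrongTate T X) ↔
      ∀ (a b c : ℕ) (t : Fin a → Fin b → Fin c → k), (∀ i j l, t i j l ∈ S) →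
        StrongTate T (hypS t) := by
  have hst : ∀ X : Sch k, FT True X → (StrongTate T X ↔ BijAll (cmpData T hT.fixed) X) :=
    fun X hX => strongTate_iff hT.toIsCycleTheory hX
  constructor
  · intro h a b c t _
    exact h _ (ft_aff True)
  · intro h X hX
    have h2 := tate_base hT (h 1 1 1 (T1 k) fun _ _ _ => h1)
    exact (hst X hX).mpr (universal (bnd_pair (isPair hT) h2).toUni h0 h1
      (fun a b c t ht => (hst _ (ft_aff True)).mp (h a b c t ht)) hS X hX)

end Pool.Agent.J4H10.TF
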