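import Pool.Agent.J4H10.TF.Tate
import Pool.Agent.J4H10.TF.Quad

/-!
# The strong Tate property and intersections of bilinear quadrics
-/

set_option autoImplicit false

open CategoryTheory CategoryTheory.Limits AlgebraicGeometry MvPolynomial Pool.Agent.Y116.UV
  Pool.Agent.Z125.UN Pool.Agent.Q193.LT Pool.Agent.J4H9.SV TensorProduct

universe w

namespace Pool.Agent.J4H10.TF

/-- no quadrics in the affine space of dimension zero -/
noncomputable def quadZeroR (R : Type) [CommRing R] (B : Fin 0 → Fin 0 → Fin 0 → R) :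
    Quad B ≃ₐ[R] R :=
  (Ideal.quotientEquivAlgOfEq R (by
    rw [Set.range_eq_empty, Ideal.span_empty])).trans
    ((AlgEquiv.quotientBot R (MvPolynomial (Fin 0 ⊕ Fin 0) R)).trans
      (isEmptyAlgEquiv R (Fin 0 ⊕ Fin 0)))

variable {k : Type} [Field k] {E : Type} [Field E]

variable [CharZero E] {T : CycleTheory.{w} k E} (hT : IsTheoryJ T)

include hT

/-- The base, from no quadrics. -/
theorem tate_base_quad {B : Fin 0 → Fin 0 → Fin 0 → k} (h : StrongTate T (aff k (Quad B))) :
    BijAll (cmpData T hT.fixed) (aff k k) := by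
  have hP := isPair hT
  exact fun p => (hP.iso (ft_aff True) ⟨(affIso (quadZeroR k B)).symm⟩ p).iff.mp
    ((strongTate_iff hT.toIsCycleTheory (ft_aff True)).mp h p)

/-- Schemes of dimension at most `d`, and intersections of `d + 2` bilinear quadrics. -/
theorem tate_dim_quad [PerfectField k] (d : ℕ) : List.TFAE [
    ∀ X : Sch k, FT True X → topologicalKrullDim X.left ≤ d → StrongTate T X,
    ∀ (a b c : ℕ) (t : Fin a → Fin b → Fin c → k), (a ≤ d + 2 ∨ b ≤ d + 2 ∨ c ≤ d + 2) →
      StrongTate T (hypS t),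
    ∀ (r b c : ℕ) (B : Fin r → Fin b → Fin c → k), r ≤ d + 2 → StrongTate T (aff k (Quad B))] := by
  have hst : ∀ X : Sch k, FT True X → (StrongTate T X ↔ BijAll (cmpData T hT.fixed) X) :=
    fun X hX => strongTate_iff hT.toIsCycleTheory hX
  have h02 : (∀ X : Sch k, FT True X → topologicalKrullDim X.left ≤ d → StrongTate T X) ↔
      ∀ (a b c : ℕ) (t : Fin a → Fin b → Fin c → k), (a ≤ d + 2 ∨ b ≤ d + 2 ∨ c ≤ d + 2) →
        StrongTate T (hypS t) := (tate_dim hT d).out 0 2
  tfae_have 1 → 2 := h02.mp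
  tfae_have 2 → 3 := by
    intro h r b c B hr
    have h1 := tate_base hT (h 1 1 1 (T1 k) (Or.inl (by omega)))
    exact (hst _ (ft_aff True)).mpr (quad_of_hyp (bnd_pair (isPair hT) h1) B
      ((hst _ (ft_aff True)).mp (h r b c B (Or.inl hr))))
  tfae_have 3 → 1 := by
    intro h
    refine h02.mpr fun a b c t hm => ?_
    have h1 := tate_base_quad hT (h 0 0 0 (fun _ _ _ => 0) (by omega))
    exact (hst _ (ft_aff True)).mpr (hyps_of_quads (bnd_pair (isPair hT) h1) (m := d + 2)
      (fun r b c B hr => (hst _ (ft_aff True)).mp (h r b c B hr)) t hm)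
  tfae_finish

/-- All schemes, and intersections of bilinear quadrics with coefficients in `S`. -/
theorem tate_all_quad {S : Set k} (h0 : 0 ∈ S) (h1 : 1 ∈ S) (hS : Presents S) :
    (∀ X : Sch k, FT True X → StrongTate T X) ↔
      ∀ (r b c : ℕ) (B : Fin r → Fin b → Fin c → k), (∀ i j l, B i j l ∈ S) →
        StrongTate T (aff k (Quad B)) := by
  have hst : ∀ X : Sch k, FT True X → (StrongTate T X ↔ BijAll (cmpData T hT.fixed) X) :=
    fun X hX => strongTate_iff hT.toIsCycleTheory hX
  constructor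
  · intro h r b c B _
    exact h _ (ft_aff True)
  · intro h
    rw [tate_all hT h0 h1 hS]
    intro a b c t ht
    have h2 := tate_base_quad hT (h 0 0 0 (fun _ _ _ => 0) fun i => i.elim0)
    exact (hst _ (ft_aff True)).mpr (hyp_of_quad (bnd_pair (isPair hT) h2) t
      ((hst _ (ft_aff True)).mp (h a b c t ht)))

end Pool.Agent.J4H10.TF
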